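import Pool.Agent.P.MP_f7c707_co.ExM

open Pool.Agent.P.MP_f7c707_co

namespace Pool.Agent.Results.MP_f7c707_co.ExactMaximum

/-- For large `n`, any `n` points of Euclidean four-space span at most `n ^ 2` congruent copies
of any 3-simplex, and for each `k ≥ 6` one simplex attains `n ^ 2` whenever `2 * k` divides
`n`. -/
theorem result : ∃ N : ℕ,
    (∀ s : Finset E4, IsSimplex3 s → ∀ n : ℕ, N ≤ n → maxCopies s n ≤ n ^ 2) ∧
    ∀ k : ℕ, 6 ≤ k → ∃ s : Finset E4, IsSimplex3 s ∧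
      ∀ n : ℕ, N ≤ n → 2 * k ∣ n → maxCopies s n = n ^ 2 :=
  Sh.exact_max

/-- The maximum over all simplices for large even `n`, derived from `result`. -/
theorem even_exact : ∃ N : ℕ, ∀ n : ℕ, N ≤ n → Even n →
    IsGreatest {m : ℕ | ∃ s : Finset E4, IsSimplex3 s ∧ maxCopies s n = m} (n ^ 2) := by
  obtain ⟨N, h1, h2⟩ := result
  refine ⟨N + 12, fun n hn ⟨k, hk⟩ => ⟨?_, ?_⟩⟩
  · obtain ⟨s, hs, h⟩ := h2 k (by omega)
    exact ⟨s, hs, h n (by omega) ⟨1, by omega⟩⟩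
  · rintro m ⟨s, hs, rfl⟩
    exact h1 s hs n (by omega)

/-- The asymptotic form, derived from `result` and monotonicity in `n`. -/
theorem sharp_constant : ∃ s₀ : Finset E4, IsSimplex3 s₀ ∧ ∀ ε : ℝ, 0 < ε → ∃ N : ℕ, ∀ n : ℕ,
    N ≤ n → (1 - ε) * (n : ℝ) ^ 2 ≤ maxCopies s₀ n ∧
      ∀ s : Finset E4, IsSimplex3 s → (maxCopies s n : ℝ) ≤ (1 + ε) * (n : ℝ) ^ 2 := by
  obtain ⟨N, hN, hl⟩ := result
  obtain ⟨s₀, h₀, hl⟩ := hl 6 le_rfl
  refine ⟨s₀, h₀, fun ε hε => ⟨N + 11 + ⌈22 / ε⌉₊, fun n hn => ⟨?_, fun s hs => ?_⟩⟩⟩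
  · have h1 : (22 / ε : ℝ) ≤ n := Nat.ceil_le.1 (by omega)
    have h2 : (22 : ℝ) ≤ n * ε := (div_le_iff₀ hε).1 h1
    have h3 : (n : ℝ) ≤ (12 * (n / 12) : ℕ) + 11 := by
      exact_mod_cast (by omega : n ≤ 12 * (n / 12) + 11)
    have h4 : (11 : ℝ) ≤ n := by exact_mod_cast (by omega : 11 ≤ n)
    have h5 : ((12 * (n / 12) : ℕ) : ℝ) ^ 2 ≤ maxCopies s₀ n := by
      exact_mod_cast (hl _ (by omega) ⟨n / 12, rfl⟩).ge.trans
        (Sh.maxCopies_mono s₀ (by omega : 12 * (n / 12) ≤ n))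
    have h6 : ((n : ℝ) - 11) ^ 2 ≤ ((12 * (n / 12) : ℕ) : ℝ) ^ 2 :=
      pow_le_pow_left₀ (by linarith) (by linarith) 2
    have h7 : (22 : ℝ) * n ≤ n * ε * n := mul_le_mul_of_nonneg_right h2 (by linarith)
    nlinarith
  · have h1 : (maxCopies s n : ℝ) ≤ (n : ℝ) ^ 2 := by exact_mod_cast hN s hs n (by omega)
    nlinarith [mul_nonneg hε.le (sq_nonneg (n : ℝ))]

/-- The exponent asked for, derived from `result`. -/
theorem alpha_two : alphaStar = 2 := by
  obtain ⟨s₀, h₀, h⟩ := sharp_constant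
  obtain ⟨N, hN⟩ := h (1 / 2) (by norm_num)
  refine le_antisymm (iSup₂_le fun s hs => ?_) (le_iSup₂_of_le s₀ h₀ ?_)
  · by_contra hcon
    obtain ⟨r, hr1, hr2⟩ := EReal.lt_iff_exists_real_btwn.1 (not_le.1 hcon)
    have hr : (2 : ℝ) < r := EReal.coe_lt_coe_iff.1 hr1
    refine absurd hr2 (not_lt.2 (Filter.limsup_le_of_le (by isBoundedDefault) ?_))
    filter_upwards [eventually_div_log_le (Real.log (1 + 1 / 2)) (show 0 < r - 2 by linarith),
      Filter.eventually_ge_atTop 1, Filter.eventually_ge_atTop N] with n ⟨h1, h2⟩ hn hn2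
    rw [EReal.coe_le_coe_iff, div_le_iff₀ h1]
    have hn' : (0 : ℝ) < n := by exact_mod_cast hn
    rcases Nat.eq_zero_or_pos (maxCopies s n) with h0 | h0
    · rw [h0, Nat.cast_zero, Real.log_zero]
      nlinarith
    · refine (Real.log_le_log (by exact_mod_cast h0) ((hN n hn2).2 s hs)).trans ?_
      rw [Real.log_mul (by positivity) (by positivity), Real.log_pow]
      push_cast
      linarith
  · by_contra hcon
    obtain ⟨r, hr1, hr2⟩ := EReal.lt_iff_exists_real_btwn.1 (not_le.1 hcon)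
    have hr : r < (2 : ℝ) := EReal.coe_lt_coe_iff.1 hr2
    refine absurd hr1
      (not_lt.2 (Filter.le_limsup_of_frequently_le (Filter.Eventually.frequently ?_)))
    filter_upwards [eventually_div_log_le (Real.log 2) (show 0 < 2 - r by linarith),
      Filter.eventually_ge_atTop 1, Filter.eventually_ge_atTop N] with n ⟨h1, h2⟩ hn hn2
    rw [EReal.coe_le_coe_iff, le_div_iff₀ h1]
    have hn' : (0 : ℝ) < n := by exact_mod_cast hn
    have h4 : (n : ℝ) ^ 2 / 2 ≤ maxCopies s₀ n := by linarith [(hN n hn2).1]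
    have h5 := Real.log_le_log (by positivity) h4
    rw [Real.log_div (by positivity) (by norm_num), Real.log_pow] at h5
    push_cast at h5
    linarith

/-- The quadratic bound for all `n`, with one constant. -/
theorem quadratic_bound : ∃ C : ℝ, ∀ s : Finset E4, IsSimplex3 s →
    ∀ n : ℕ, (maxCopies s n : ℝ) ≤ C * (n : ℝ) ^ 2 :=
  maxCopies_le_sq

end Pool.Agent.Results.MP_f7c707_co.ExactMaximum
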