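import Pool.Agent.P.MP_f7c707_co.RLow

/-- For all large `n`, the largest number of congruent copies of a regular tetrahedron spanned by
`n` points of Euclidean four-space is `p * (4 * n - 12 * p - 3)` with `p = ⌊(n + 2) / 6⌋`. -/
theorem Pool.Agent.Results.MP_f7c707_co.RegularExact.result :
    ∃ N : ℕ, ∀ s : Finset Pool.Agent.P.MP_f7c707_co.E4, Pool.Agent.P.MP_f7c707_co.IsSimplex3 s →
      (∀ a ∈ s, ∀ b ∈ s, ∀ c ∈ s, ∀ d ∈ s, a ≠ b → c ≠ d → dist a b = dist c d) →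
      ∀ n : ℕ, N ≤ n → (Pool.Agent.P.MP_f7c707_co.maxCopies s n : ℤ) =
        ((n : ℤ) + 2) / 6 * (4 * n - 12 * (((n : ℤ) + 2) / 6) - 3) :=
  Pool.Agent.P.MP_f7c707_co.regular_exact
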