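import Pool.Agent.P.MP_f7c707_co.EvZ

open Pool.Agent.P.MP_f7c707_co Filter Topology

namespace Pool.Agent.Results.MP_f7c707_co.SimplexConstants

/-- For every 3-simplex in Euclidean four-space the largest number of congruent copies among
`n` points, divided by `n ^ 2`, converges; the limits form a finite set of rational numbers
with least element `1 / 6`. -/
theorem result : ∃ S : Finset ℚ, IsLeast (S : Set ℚ) (1 / 6) ∧
    (∀ s : Finset E4, IsSimplex3 s → ∃ c ∈ S,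
      Tendsto (fun n : ℕ => (maxCopies s n : ℝ) / (n : ℝ) ^ 2) atTop (𝓝 (c : ℝ))) ∧
    ∀ c ∈ S, ∃ s : Finset E4, IsSimplex3 s ∧
      Tendsto (fun n : ℕ => (maxCopies s n : ℝ) / (n : ℝ) ^ 2) atTop (𝓝 (c : ℝ)) :=
  Sh.every

/-- The greatest limit is one. -/
theorem greatest_one : IsGreatest {c : ℝ | ∃ s : Finset E4, IsSimplex3 s ∧
    Tendsto (fun n : ℕ => (maxCopies s n : ℝ) / (n : ℝ) ^ 2) atTop (𝓝 c)} 1 := by
  obtain ⟨s₀, h₀, h⟩ := Sh.sharp
  refine ⟨⟨s₀, h₀, Metric.tendsto_atTop.2 fun ε hε => ?_⟩, ?_⟩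
  · obtain ⟨N, hN⟩ := h (ε / 2) (by linarith)
    refine ⟨N + 1, fun n hn => ?_⟩
    have h1 : (0 : ℝ) < (n : ℝ) ^ 2 := pow_pos (by exact_mod_cast (by omega : 0 < n)) 2
    have h2 := (le_div_iff₀ h1).2 (hN n (by omega)).1
    have h3 := (div_le_iff₀ h1).2 ((hN n (by omega)).2 s₀ h₀)
    rw [Real.dist_eq, abs_sub_lt_iff]
    exact ⟨by linarith, by linarith⟩
  · rintro c ⟨s, hs, hc⟩
    refine le_of_forall_pos_le_add fun ε hε => ?_
    obtain ⟨N, hN⟩ := h ε hε
    refine le_of_tendsto hc ?_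
    filter_upwards [eventually_ge_atTop (N + 1)] with n hn
    have h1 : (0 : ℝ) < (n : ℝ) ^ 2 := pow_pos (by exact_mod_cast (by omega : 0 < n)) 2
    exact (div_le_iff₀ h1).2 ((hN n (by omega)).2 s hs)

end Pool.Agent.Results.MP_f7c707_co.SimplexConstants
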